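import Mathlib

namespace Pool.Agent.Results.MP_2a0e18_al.Infinite

open TensorProduct

/-- two-sided group-like projections -/
def TwoSided (k : Type) {A : Type} [Field k] [Ring A] [HopfAlgebra k A] (P : A) : Prop :=
  P ≠ 0 ∧ P * P = P ∧
  (Coalgebra.comul P * (1 ⊗ₜ[k] P) = P ⊗ₜ P ∧ (1 ⊗ₜ[k] P) * Coalgebra.comul P = P ⊗ₜ P) ∧
  (Coalgebra.comul P * (P ⊗ₜ[k] 1) = P ⊗ₜ P ∧ (P ⊗ₜ[k] 1) * Coalgebra.comul P = P ⊗ₜ P)

abbrev k := RatFunc (ZMod 2)

open FreeAlgebra in
inductive R : FreeAlgebra k Bool → FreeAlgebra k Bool → Prop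
  | hh : R (ι k true * ι k true) (ι k true)
  | ee : R (ι k false * ι k false) 0
  | eh : R (ι k false * ι k true) (ι k true * ι k false + ι k false)

abbrev A := RingQuot R

noncomputable section

def h : A := RingQuot.mkAlgHom k R (FreeAlgebra.ι k true)
def e : A := RingQuot.mkAlgHom k R (FreeAlgebra.ι k false)

lemma hh : h * h = h := by simpa [h, e] using RingQuot.mkAlgHom_rel k R.hh
lemma ee : e * e = 0 := by simpa [h, e] using RingQuot.mkAlgHom_rel k R.ee
lemma eh : e * h = h * e + e := by simpa [h, e] using RingQuot.mkAlgHom_rel k R.eh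

lemma two {B : Type} [AddCommMonoid B] [Module k B] (z : B) : z + z = 0 := by
  rw [← two_smul k, show (2 : k) = 0 from CharTwo.two_eq_zero, zero_smul]

lemma two' {B : Type} [AddCommMonoid B] [Module k B] (z w : B) : z + (z + w) = w := by
  rw [← add_assoc, two, zero_add]

variable {B : Type} [Semiring B] [Algebra k B]

def lift (x y : B) (p : x * x = x ∧ y * y = 0 ∧ y * x = x * y + y) : A →ₐ[k] B :=
  RingQuot.liftAlgHom k ⟨FreeAlgebra.lift k fun b => cond b x y, by
    rintro _ _ (_ | _ | _) <;> simp [p]⟩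

@[simp] lemma lh (x y : B) (p) : lift x y p h = x := by simp [lift, h]
@[simp] lemma le (x y : B) (p) : lift x y p e = y := by simp [lift, e]

lemma ext {f g : A →ₐ[k] B} (h1 : f h = g h) (h2 : f e = g e) : f = g :=
  RingQuot.ringQuot_ext' k _ _ (FreeAlgebra.hom_ext (funext fun b => by cases b <;> assumption))

def Δ : A →ₐ[k] A ⊗[k] A := lift (h ⊗ₜ 1 + 1 ⊗ₜ h) (e ⊗ₜ 1 + 1 ⊗ₜ e) (by
  simp [mul_add, add_mul, hh, ee, eh, add_tmul, tmul_add, add_assoc, two, two', add_comm,
    add_left_comm])

def ε : A →ₐ[k] k := lift 0 0 (by simp)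

def S : A →ₐ[k] Aᵐᵒᵖ := lift (.op h) (.op e) (by
  simp [← MulOpposite.op_mul, ← MulOpposite.op_add, hh, ee, eh, add_assoc, two])

instance : Bialgebra k A := .ofAlgHom Δ ε
  (by apply ext <;> simp [Δ, add_tmul, tmul_add, add_assoc, Algebra.TensorProduct.one_def])
  (by apply ext <;> simp [Δ, ε]) (by apply ext <;> simp [Δ, ε])

lemma sp : Submodule.span k {1, h, e, h * e} = ⊤ := by
  set W := Submodule.span k {1, h, e, h * e}
  have m : ∀ x ∈ ({1, h, e, h * e} : Set A), x ∈ W := fun x hx => Submodule.subset_span hx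
  have g : ∀ b : A, (∀ x ∈ ({1, h, e, h * e} : Set A), b * x ∈ W) → ∀ z ∈ W, b * z ∈ W :=
    fun b hb z hz => (Submodule.span_le (p := W.comap (LinearMap.mulLeft k b))).mpr hb hz
  have : ∀ a, ∀ z ∈ W, RingQuot.mkAlgHom k R a * z ∈ W := fun a => by
    induction a using FreeAlgebra.induction with
    | grade0 c => exact fun z hz => by rw [AlgHom.commutes, ← Algebra.smul_def]; exact W.smul_mem c hz
    | grade1 b =>
      cases b
      · refine g e ?_
        rintro _ (rfl | rfl | rfl | rfl) <;>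
          simp [← mul_assoc, eh, add_mul, mul_assoc _ e e, ee, add_mem, m]
      · refine g h ?_
        rintro _ (rfl | rfl | rfl | rfl) <;> simp [← mul_assoc, hh, m]
    | mul a b ha hb => exact fun z hz => by rw [map_mul, mul_assoc]; exact ha _ (hb z hz)
    | add a b ha hb => exact fun z hz => by rw [map_add, add_mul]; exact add_mem (ha z hz) (hb z hz)
  refine eq_top_iff.mpr fun a _ => ?_
  obtain ⟨a, rfl⟩ := RingQuot.mkAlgHom_surjective k R a
  simpa using this a 1 (m 1 (by simp))

lemma cm (a : A) : Coalgebra.comul (R := k) a = Δ a := rfl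
lemma cu (a : A) : Coalgebra.counit (R := k) a = ε a := rfl

instance : HopfAlgebra k A where
  antipode := (MulOpposite.opLinearEquiv k).symm.toLinearMap ∘ₗ S.toLinearMap
  mul_antipode_rTensor_comul := LinearMap.ext_on sp (by
    rintro _ (rfl | rfl | rfl | rfl) <;>
      simp [cm, cu, Δ, ε, S, mul_add, add_mul, Algebra.TensorProduct.one_def, two, two', add_comm,
        add_left_comm])
  mul_antipode_lTensor_comul := LinearMap.ext_on sp (by
    rintro _ (rfl | rfl | rfl | rfl) <;>
      simp [cm, cu, Δ, ε, S, mul_add, add_mul, Algebra.TensorProduct.one_def, two, two', add_comm,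
        add_left_comm])

def ρ : A →ₐ[k] Matrix (Fin 2) (Fin 2) k := lift !![1, 0; 0, 0] !![0, 1; 0, 0] (by
  refine ⟨?_, ?_, ?_⟩ <;> ext i j <;> fin_cases i <;> fin_cases j <;> simp [two])

end

/-- A finite-dimensional Hopf algebra with infinitely many two-sided group-like projections. -/
theorem result : ∃ (k A : Type) (_ : Field k) (_ : Ring A) (_ : HopfAlgebra k A),
    Module.Finite k A ∧ {P : A | TwoSided k P}.Infinite := by
  have : Infinite k := .of_injective _ (RatFunc.algebraMap_injective (ZMod 2))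
  refine ⟨k, A, inferInstance, inferInstance, inferInstance,
    ⟨Submodule.fg_def.mpr ⟨_, Set.toFinite _, sp⟩⟩,
    Set.infinite_of_injective_forall_mem (f := fun t : k => 1 + (h + t • e)) (fun s t p => ?_)
      fun t => ?_⟩
  · simpa [ρ] using congrArg (fun a => ρ a 0 1) p
  · have x2 : (h + t • e) * (h + t • e) = h + t • e := by
      simp [mul_add, add_mul, hh, ee, eh, add_assoc, two', add_comm (t • e)]
    have d : Δ (h + t • e) = (h + t • e) ⊗ₜ 1 + 1 ⊗ₜ (h + t • e) := by
      simp [Δ, add_tmul, tmul_add, smul_tmul']; abel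
    have n : 1 + (h + t • e) ≠ 0 := fun p => by simpa [ρ] using congrArg (fun a => ρ a 1 1) p
    generalize h + t • e = x at *
    refine ⟨n, ?_, ⟨?_, ?_⟩, ?_, ?_⟩ <;>
      simp [cm, d, mul_add, add_mul, x2, add_tmul, tmul_add, Algebra.TensorProduct.one_def, add_assoc,
        two, two', add_comm, add_left_comm]

end Pool.Agent.Results.MP_2a0e18_al.Infinite
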